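import Pool.Agent.Results.MP_83c24b_al.Connected

set_option autoImplicit false

/-! The algebras `R⟨x, y⟩/(x², y², xy - l yx)` over a commutative local ring `R`. -/

namespace Pool.Agent.Y28.SA

open Pool.Agent.Results.MP_83c24b_al.Connected

universe u v

/-- The algebra `R⟨x, y⟩/(x², y², xy - l yx)` with `R`-basis `1, x, y, yx`. -/
@[ext] structure LamR (R : Type u) (l : R) where
  p : R
  a : R
  b : R
  z : R

namespace LamR

section ring

variable {R : Type u} [CommRing R] {l : R}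

instance : Zero (LamR R l) := ⟨⟨0, 0, 0, 0⟩⟩
instance : One (LamR R l) := ⟨⟨1, 0, 0, 0⟩⟩
instance : Add (LamR R l) := ⟨fun s t => ⟨s.p + t.p, s.a + t.a, s.b + t.b, s.z + t.z⟩⟩
instance : Neg (LamR R l) := ⟨fun s => ⟨-s.p, -s.a, -s.b, -s.z⟩⟩
instance : Mul (LamR R l) := ⟨fun s t => ⟨s.p * t.p, s.p * t.a + s.a * t.p,
  s.p * t.b + s.b * t.p, s.p * t.z + s.z * t.p + s.b * t.a + l * (s.a * t.b)⟩⟩

section simps
variable (s t : LamR R l)
@[simp] lemma zero_p : (0 : LamR R l).p = 0 := rfl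
@[simp] lemma zero_a : (0 : LamR R l).a = 0 := rfl
@[simp] lemma zero_b : (0 : LamR R l).b = 0 := rfl
@[simp] lemma zero_z : (0 : LamR R l).z = 0 := rfl
@[simp] lemma one_p : (1 : LamR R l).p = 1 := rfl
@[simp] lemma one_a : (1 : LamR R l).a = 0 := rfl
@[simp] lemma one_b : (1 : LamR R l).b = 0 := rfl
@[simp] lemma one_z : (1 : LamR R l).z = 0 := rfl
@[simp] lemma add_p : (s + t).p = s.p + t.p := rfl
@[simp] lemma add_a : (s + t).a = s.a + t.a := rfl
@[simp] lemma add_b : (s + t).b = s.b + t.b := rfl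
@[simp] lemma add_z : (s + t).z = s.z + t.z := rfl
@[simp] lemma neg_p : (-s).p = -s.p := rfl
@[simp] lemma neg_a : (-s).a = -s.a := rfl
@[simp] lemma neg_b : (-s).b = -s.b := rfl
@[simp] lemma neg_z : (-s).z = -s.z := rfl
@[simp] lemma mul_p : (s * t).p = s.p * t.p := rfl
@[simp] lemma mul_a : (s * t).a = s.p * t.a + s.a * t.p := rfl
@[simp] lemma mul_b : (s * t).b = s.p * t.b + s.b * t.p := rfl
@[simp] lemma mul_z : (s * t).z =
  s.p * t.z + s.z * t.p + s.b * t.a + l * (s.a * t.b) := rfl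
end simps

instance : Ring (LamR R l) :=
  Ring.ofMinimalAxioms
    (fun s t r => by ext <;> simp <;> ring)
    (fun s => by ext <;> simp)
    (fun s => by ext <;> simp)
    (fun s t r => by ext <;> simp <;> ring)
    (fun s => by ext <;> simp)
    (fun s => by ext <;> simp)
    (fun s t r => by ext <;> simp <;> ring)
    (fun s t r => by ext <;> simp <;> ring)

@[simp] lemma sub_p (s t : LamR R l) : (s - t).p = s.p - t.p := by
  rw [sub_eq_add_neg, add_p, neg_p, sub_eq_add_neg]
@[simp] lemma sub_a (s t : LamR R l) : (s - t).a = s.a - t.a := by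
  rw [sub_eq_add_neg, add_a, neg_a, sub_eq_add_neg]
@[simp] lemma sub_b (s t : LamR R l) : (s - t).b = s.b - t.b := by
  rw [sub_eq_add_neg, add_b, neg_b, sub_eq_add_neg]
@[simp] lemma sub_z (s t : LamR R l) : (s - t).z = s.z - t.z := by
  rw [sub_eq_add_neg, add_z, neg_z, sub_eq_add_neg]

lemma two_p : (2 : LamR R l).p = 2 := by
  have h : (2 : LamR R l) = 1 + 1 := one_add_one_eq_two.symm
  rw [h, add_p, one_p, one_add_one_eq_two]

/-- The inclusion of `R`. -/
def inc (l : R) : R →+* LamR R l where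
  toFun r := ⟨r, 0, 0, 0⟩
  map_one' := rfl
  map_mul' r s := by ext <;> simp
  map_zero' := rfl
  map_add' r s := by ext <;> simp

@[simp] lemma inc_p (r : R) : (inc l r).p = r := rfl
@[simp] lemma inc_a (r : R) : (inc l r).a = 0 := rfl
@[simp] lemma inc_b (r : R) : (inc l r).b = 0 := rfl
@[simp] lemma inc_z (r : R) : (inc l r).z = 0 := rfl

/-- The projection to `R`. -/
def pr (l : R) : LamR R l →+* R where
  toFun s := s.p
  map_one' := rfl
  map_mul' r s := rfl
  map_zero' := rfl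
  map_add' r s := rfl

lemma pr_apply (s : LamR R l) : pr l s = s.p := rfl

lemma isUnit_of (s : LamR R l) (h : IsUnit s.p) : IsUnit s := by
  obtain ⟨q, hq⟩ := h
  obtain ⟨r, hr⟩ : ∃ r : R, s.p * r = 1 := ⟨((q⁻¹ : Rˣ) : R), by rw [← hq]; exact Units.mul_inv q⟩
  let t : LamR R l := ⟨r, -(r * r * s.a), -(r * r * s.b),
    -(r * r * s.z) + r ^ 3 * (1 + l) * (s.a * s.b)⟩
  have h1 : s * t = 1 := by
    ext
    · simp [t, hr]
    · simp only [t, mul_a, one_a]
      linear_combination (-(r * s.a)) * hr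
    · simp only [t, mul_b, one_b]
      linear_combination (-(r * s.b)) * hr
    · simp only [t, mul_z, one_z]
      linear_combination (-(r * s.z) + r ^ 2 * (1 + l) * (s.a * s.b)) * hr
  have h2 : t * s = 1 := by
    ext
    · simp [t, mul_comm r, hr]
    · simp only [t, mul_a, one_a]
      linear_combination (-(r * s.a)) * hr
    · simp only [t, mul_b, one_b]
      linear_combination (-(r * s.b)) * hr
    · simp only [t, mul_z, one_z]
      linear_combination (-(r * s.z) + r ^ 2 * (1 + l) * (s.a * s.b)) * hr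
  exact ⟨⟨s, t, h1, h2⟩, rfl⟩

lemma isUnit_iff (s : LamR R l) : IsUnit s ↔ IsUnit s.p :=
  ⟨fun h => h.map (pr l), isUnit_of s⟩

lemma loc [IsLocalRing R] (h2 : IsUnit (2 : R)) : Loc (LamR R l) where
  nt := ⟨0, 1, fun h => zero_ne_one (congrArg LamR.p h)⟩
  two := isUnit_of _ (by rw [two_p]; exact h2)
  sq := by
    intro s hs
    have h1 : s.p * s.p = 1 := by simpa using congrArg LamR.p hs
    have hp : IsUnit s.p := IsUnit.of_mul_eq_one _ h1
    have key : ∀ t : R, s.p * t + t * s.p = 0 → t = 0 := by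
      intro t ht
      have h3 : (2 * s.p) * t = 0 := by rw [← ht]; ring
      exact ((h2.mul hp).mul_right_eq_zero).1 h3
    have e2 : s.a = 0 := key _ (by simpa using congrArg LamR.a hs)
    have e4 : s.b = 0 := key _ (by simpa using congrArg LamR.b hs)
    have e6 : s.z = 0 := key _ (by simpa [e2, e4] using congrArg LamR.z hs)
    have h4 : IsUnit (s.p + 1) ∨ IsUnit (-(s.p - 1)) := by
      apply IsLocalRing.isUnit_or_isUnit_of_isUnit_add
      have : s.p + 1 + -(s.p - 1) = 2 := by ring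
      rw [this]
      exact h2
    have h5 : (s.p + 1) * (s.p - 1) = 0 := by linear_combination h1
    rcases h4 with h | h
    · left
      have h6 : s.p - 1 = 0 := (h.mul_right_eq_zero).1 h5
      ext
      · rw [one_p]; linear_combination h6
      · simp [e2]
      · simp [e4]
      · simp [e6]
    · right
      have h6 : s.p + 1 = 0 := by
        have h7 : (s.p + 1) * -(s.p - 1) = 0 := by linear_combination -h5
        exact (h.mul_left_eq_zero).1 h7
      ext
      · rw [neg_p, one_p]; linear_combination h6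
      · simp [e2]
      · simp [e4]
      · simp [e6]
  unit_or := by
    intro s
    have h4 : IsUnit (s.p + 1) ∨ IsUnit (-s.p) := by
      apply IsLocalRing.isUnit_or_isUnit_of_isUnit_add
      have : s.p + 1 + -s.p = 1 := by ring
      rw [this]
      exact isUnit_one
    rcases h4 with h | h
    · right
      exact isUnit_of _ (by simpa using h)
    · left
      exact isUnit_of _ (by simpa using h)
  unit_of_mul := by
    intro s t h
    refine isUnit_of _ ?_
    have h3 := congrArg LamR.p h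
    rw [mul_p, one_p, mul_comm] at h3
    exact IsUnit.of_mul_eq_one _ h3

/-- Functoriality. -/
def twist {R' : Type v} [CommRing R'] {l' : R'} (f : R ≃+* R') (h : f l = l') :
    LamR R l ≃+* LamR R' l' where
  toFun s := ⟨f s.p, f s.a, f s.b, f s.z⟩
  invFun s := ⟨f.symm s.p, f.symm s.a, f.symm s.b, f.symm s.z⟩
  left_inv s := by ext <;> simp
  right_inv s := by ext <;> simp
  map_add' s t := by ext <;> simp
  map_mul' s t := by ext <;> simp [h]

lemma central (hl : IsUnit (1 - l)) (s : LamR R l) (h : ∀ t, s * t = t * s) :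
    s.a = 0 ∧ s.b = 0 := by
  constructor
  · have h1 := congrArg LamR.z (h ⟨0, 0, 1, 0⟩)
    simp at h1
    have h2 : (1 - l) * s.a = 0 := by linear_combination -h1
    exact (hl.mul_right_eq_zero).1 h2
  · have h1 := congrArg LamR.z (h ⟨0, 1, 0, 0⟩)
    simp at h1
    have h2 : (1 - l) * s.b = 0 := by linear_combination h1
    exact (hl.mul_right_eq_zero).1 h2

lemma comm_zero (hl : IsUnit (1 - l)) (w : R) :
    ∃ q : R, (⟨0, 0, 0, w⟩ : LamR R l) =
      inc l q * ((⟨0, 1, 0, 0⟩ : LamR R l) * ⟨0, 0, 1, 0⟩ - ⟨0, 0, 1, 0⟩ * ⟨0, 1, 0, 0⟩) := by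
  obtain ⟨u, hu⟩ := hl
  refine ⟨-(w * ((u⁻¹ : Rˣ) : R)), ?_⟩
  have h1 : (1 - l) * ((u⁻¹ : Rˣ) : R) = 1 := by rw [← hu]; exact Units.mul_inv u
  ext
  · simp
  · simp
  · simp
  · simp
    linear_combination (-w) * h1

lemma map_top {S : Type v} [CommRing S] (hl : IsUnit (1 - l)) (f : LamR R l →+* S) (w : R) :
    f ⟨0, 0, 0, w⟩ = 0 := by
  obtain ⟨q, hq⟩ := comm_zero hl w
  rw [hq, map_mul, map_sub, map_mul, map_mul]
  ring

lemma top_central (w : R) (t : LamR R l) :
    (⟨0, 0, 0, w⟩ : LamR R l) * t = t * ⟨0, 0, 0, w⟩ := by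
  ext <;> simp [mul_comm]

lemma inc_central (r : R) (t : LamR R l) : inc l r * t = t * inc l r := by
  ext <;> simp [mul_comm]

end ring

section iso

variable {R : Type u} [CommRing R] {l : R} {R' : Type v} [CommRing R'] {l' : R'}

lemma central_map (θ : LamR R l ≃+* LamR R' l') {s : LamR R l} (h : ∀ t, s * t = t * s) :
    ∀ t, θ s * t = t * θ s := by
  intro t
  obtain ⟨t, rfl⟩ := θ.surjective t
  rw [← map_mul, h, map_mul]

lemma psi_aux (hl : IsUnit (1 - l)) (hl' : IsUnit (1 - l')) (θ : LamR R l ≃+* LamR R' l')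
    (r : R) : (θ.symm (inc l' (θ (inc l r)).p)).p = r := by
  obtain ⟨h1, h2⟩ := central hl' _ (central_map θ (inc_central r))
  have h3 : θ (inc l r) = inc l' (θ (inc l r)).p + ⟨0, 0, 0, (θ (inc l r)).z⟩ := by
    ext
    · simp
    · simp [h1]
    · simp [h2]
    · simp
  have h4 : (θ.symm (θ (inc l r))).p = r := by rw [RingEquiv.symm_apply_apply]; rfl
  rw [h3, map_add, add_p] at h4
  have h5 := map_top hl' ((pr l).comp (θ.symm : LamR R' l' →+* LamR R l)) (θ (inc l r)).z
  have h6 : (θ.symm ⟨0, 0, 0, (θ (inc l r)).z⟩).p = 0 := h5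
  rw [h6, add_zero] at h4
  exact h4

/-- A ring isomorphism `θ` induces an isomorphism of the coefficient rings. -/
def psi (hl : IsUnit (1 - l)) (hl' : IsUnit (1 - l')) (θ : LamR R l ≃+* LamR R' l') :
    R ≃+* R' where
  toFun r := (θ (inc l r)).p
  invFun r := (θ.symm (inc l' r)).p
  left_inv r := psi_aux hl hl' θ r
  right_inv r := psi_aux hl' hl θ.symm r
  map_mul' r s := by rw [map_mul, map_mul, mul_p]
  map_add' r s := by rw [map_add, map_add, add_p]

lemma psi_apply (hl : IsUnit (1 - l)) (hl' : IsUnit (1 - l')) (θ : LamR R l ≃+* LamR R' l')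
    (r : R) : psi hl hl' θ r = (θ (inc l r)).p := rfl

lemma top_map (hl : IsUnit (1 - l)) (hl' : IsUnit (1 - l')) (θ : LamR R l ≃+* LamR R' l')
    (w : R) : (θ ⟨0, 0, 0, w⟩).p = 0 ∧ (θ ⟨0, 0, 0, w⟩).a = 0 ∧ (θ ⟨0, 0, 0, w⟩).b = 0 := by
  obtain ⟨h1, h2⟩ := central hl' _ (central_map θ (top_central w))
  have h5 := map_top hl ((pr l').comp (θ : LamR R l →+* LamR R' l')) w
  exact ⟨h5, h1, h2⟩

/-- The parameter `l` is determined up to inversion. -/
theorem psi_l [IsLocalRing R'] (hl : IsUnit (1 - l)) (hl' : IsUnit (1 - l'))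
    (hl2 : IsUnit (1 + l')) (θ : LamR R l ≃+* LamR R' l') :
    psi hl hl' θ l = l' ∨ psi hl hl' θ l * l' = 1 := by
  obtain ⟨X, hX⟩ : ∃ X, X = θ ⟨0, 1, 0, 0⟩ := ⟨_, rfl⟩
  obtain ⟨Y, hY⟩ : ∃ Y, Y = θ ⟨0, 0, 1, 0⟩ := ⟨_, rfl⟩
  obtain ⟨P, hP⟩ : ∃ P, P = psi hl hl' θ l := ⟨_, rfl⟩
  have hXX : X * X = 0 := by
    rw [hX, ← map_mul]
    have : (⟨0, 1, 0, 0⟩ : LamR R l) * ⟨0, 1, 0, 0⟩ = 0 := by ext <;> simp
    rw [this, map_zero]
  have hYY : Y * Y = 0 := by
    rw [hY, ← map_mul]
    have : (⟨0, 0, 1, 0⟩ : LamR R l) * ⟨0, 0, 1, 0⟩ = 0 := by ext <;> simp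
    rw [this, map_zero]
  have hYX : Y * X = θ ⟨0, 0, 0, 1⟩ := by
    rw [hX, hY, ← map_mul]
    congr 1
    ext <;> simp
  have hXY : X * Y = θ (inc l l) * (Y * X) := by
    rw [hX, hY, ← map_mul, ← map_mul, ← map_mul]
    congr 1
    ext <;> simp
  obtain ⟨t1, t2, t3⟩ := top_map hl hl' θ 1
  rw [← hYX] at t1 t2 t3
  have hd : IsUnit (X.a * Y.b - X.b * Y.a) := by
    obtain ⟨s1, s2, s3⟩ := top_map hl' hl θ.symm 1
    obtain ⟨w, hw⟩ : ∃ w, w = (θ.symm ⟨0, 0, 0, 1⟩).z := ⟨_, rfl⟩
    have h1 : θ.symm ⟨0, 0, 0, 1⟩ = ⟨0, 0, 0, w⟩ := by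
      ext
      · exact s1
      · exact s2
      · exact s3
      · exact hw.symm
    obtain ⟨q, hq⟩ := comm_zero hl w
    have h2 : (⟨0, 0, 0, 1⟩ : LamR R' l') = θ (inc l q) * (X * Y - Y * X) := by
      rw [hX, hY, ← map_mul, ← map_mul, ← map_sub, ← map_mul, ← hq, ← h1,
        RingEquiv.apply_symm_apply]
    have h3 := congrArg LamR.z h2
    have h4 : X * Y - Y * X = ⟨0, 0, 0, (l' - 1) * (X.a * Y.b - X.b * Y.a)⟩ := by
      ext
      · simp; ring
      · simp; ring
      · simp; ring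
      · simp; ring
    rw [h4] at h3
    simp only [mul_z, mul_zero, add_zero] at h3
    refine IsUnit.of_mul_eq_one ((θ (inc l q)).p * (l' - 1)) ?_
    linear_combination -h3
  have r1 : Y.p * X.a + Y.a * X.p = 0 := by simpa using t2
  have r2 : Y.p * X.b + Y.b * X.p = 0 := by simpa using t3
  have hXp : X.p = 0 := by
    have : (X.a * Y.b - X.b * Y.a) * X.p = 0 := by linear_combination X.a * r2 - X.b * r1
    exact (hd.mul_right_eq_zero).1 this
  have hYp : Y.p = 0 := by
    have : (X.a * Y.b - X.b * Y.a) * Y.p = 0 := by linear_combination Y.b * r1 - Y.a * r2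
    exact (hd.mul_right_eq_zero).1 this
  have q1 : X.a * X.b = 0 := by
    have h1 := congrArg LamR.z hXX
    simp only [mul_z, zero_z, hXp] at h1
    have h2 : (1 + l') * (X.a * X.b) = 0 := by linear_combination h1
    exact (hl2.mul_right_eq_zero).1 h2
  have q2 : Y.a * Y.b = 0 := by
    have h1 := congrArg LamR.z hYY
    simp only [mul_z, zero_z, hYp] at h1
    have h2 : (1 + l') * (Y.a * Y.b) = 0 := by linear_combination h1
    exact (hl2.mul_right_eq_zero).1 h2
  have hz := congrArg LamR.z hXY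
  rw [mul_z, mul_z, t1, t2, t3, mul_z, hXp, hYp, ← psi_apply hl hl' θ, ← hP] at hz
  rw [← hP]
  have hcase : IsUnit (X.a * Y.b) ∨ IsUnit (-(X.b * Y.a)) := by
    apply IsLocalRing.isUnit_or_isUnit_of_isUnit_add
    rw [← sub_eq_add_neg]
    exact hd
  rcases hcase with h | h
  · left
    have hXa := isUnit_of_mul_isUnit_left h
    have hYb := isUnit_of_mul_isUnit_right h
    have hXb : X.b = 0 := (hXa.mul_right_eq_zero).1 q1
    have hYa : Y.a = 0 := (hYb.mul_left_eq_zero).1 q2
    rw [hXb, hYa] at hz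
    have h1 : (X.a * Y.b) * (P - l') = 0 := by linear_combination -hz
    have h2 := (h.mul_right_eq_zero).1 h1
    linear_combination h2
  · right
    rw [IsUnit.neg_iff] at h
    have hXb := isUnit_of_mul_isUnit_left h
    have hYa := isUnit_of_mul_isUnit_right h
    have hXa : X.a = 0 := (hXb.mul_left_eq_zero).1 q1
    have hYb : Y.b = 0 := (hYa.mul_right_eq_zero).1 q2
    rw [hXa, hYb] at hz
    have h1 : (X.b * Y.a) * (P * l' - 1) = 0 := by linear_combination -hz
    have h2 := (h.mul_right_eq_zero).1 h1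
    linear_combination h2

end iso

section alg

variable {K : Type u} [Field K] {R : Type u} [CommRing R] [Algebra K R] {l : R}

instance : Algebra K (LamR R l) :=
  RingHom.toAlgebra' ((inc l).comp (algebraMap K R)) (fun k s => inc_central _ s)

lemma algebraMap_def (k : K) : algebraMap K (LamR R l) k = inc l (algebraMap K R k) := rfl

lemma smul_def (k : K) (s : LamR R l) : k • s = ⟨k • s.p, k • s.a, k • s.b, k • s.z⟩ := by
  rw [Algebra.smul_def, algebraMap_def]
  ext <;> simp [Algebra.smul_def]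

/-- Coordinates. -/
def toPi (K : Type u) [Field K] [Algebra K R] (l : R) : LamR R l ≃ₗ[K] (Fin 4 → R) where
  toFun s := ![s.p, s.a, s.b, s.z]
  invFun v := ⟨v 0, v 1, v 2, v 3⟩
  left_inv s := by ext <;> rfl
  right_inv v := by
    funext i
    fin_cases i <;> rfl
  map_add' s t := by
    funext i
    fin_cases i <;> rfl
  map_smul' k s := by
    rw [smul_def]
    funext i
    fin_cases i <;> rfl

end alg

end LamR

end Pool.Agent.Y28.SA
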