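import Pool.Agent.Y28.SA.Lam

set_option autoImplicit false

/-! The local algebra `K[ε, δ]/(ε³, δ³, (ε+δ)³, (ε,δ)⁴)`. -/

namespace Pool.Agent.Y28.SA

open Pool.Agent.Results.MP_83c24b_al.Connected

universe u v

/-- `K[ε, δ]/(ε³, δ³, (ε+δ)³, (ε,δ)⁴)` with basis `1, ε, δ, ε², εδ, δ², ω = ε²δ = -εδ²`. -/
@[ext] structure R7 (K : Type u) where
  c0 : K
  c1 : K
  c2 : K
  c3 : K
  c4 : K
  c5 : K
  c6 : K

namespace R7

section ring

variable {K : Type u} [Field K]

instance : Zero (R7 K) := ⟨⟨0, 0, 0, 0, 0, 0, 0⟩⟩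
instance : One (R7 K) := ⟨⟨1, 0, 0, 0, 0, 0, 0⟩⟩
instance : Add (R7 K) := ⟨fun s t => ⟨s.c0 + t.c0, s.c1 + t.c1, s.c2 + t.c2, s.c3 + t.c3,
  s.c4 + t.c4, s.c5 + t.c5, s.c6 + t.c6⟩⟩
instance : Neg (R7 K) := ⟨fun s => ⟨-s.c0, -s.c1, -s.c2, -s.c3, -s.c4, -s.c5, -s.c6⟩⟩
instance : Mul (R7 K) := ⟨fun s t => ⟨s.c0 * t.c0,
  s.c0 * t.c1 + s.c1 * t.c0,
  s.c0 * t.c2 + s.c2 * t.c0,
  s.c0 * t.c3 + s.c3 * t.c0 + s.c1 * t.c1,
  s.c0 * t.c4 + s.c4 * t.c0 + s.c1 * t.c2 + s.c2 * t.c1,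
  s.c0 * t.c5 + s.c5 * t.c0 + s.c2 * t.c2,
  s.c0 * t.c6 + s.c6 * t.c0 + (s.c1 * t.c4 + s.c4 * t.c1) + (s.c2 * t.c3 + s.c3 * t.c2) -
    (s.c1 * t.c5 + s.c5 * t.c1) - (s.c2 * t.c4 + s.c4 * t.c2)⟩⟩

section simps
variable (s t : R7 K)
@[simp] lemma zero_c0 : (0 : R7 K).c0 = 0 := rfl
@[simp] lemma zero_c1 : (0 : R7 K).c1 = 0 := rfl
@[simp] lemma zero_c2 : (0 : R7 K).c2 = 0 := rfl
@[simp] lemma zero_c3 : (0 : R7 K).c3 = 0 := rfl
@[simp] lemma zero_c4 : (0 : R7 K).c4 = 0 := rfl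
@[simp] lemma zero_c5 : (0 : R7 K).c5 = 0 := rfl
@[simp] lemma zero_c6 : (0 : R7 K).c6 = 0 := rfl
@[simp] lemma one_c0 : (1 : R7 K).c0 = 1 := rfl
@[simp] lemma one_c1 : (1 : R7 K).c1 = 0 := rfl
@[simp] lemma one_c2 : (1 : R7 K).c2 = 0 := rfl
@[simp] lemma one_c3 : (1 : R7 K).c3 = 0 := rfl
@[simp] lemma one_c4 : (1 : R7 K).c4 = 0 := rfl
@[simp] lemma one_c5 : (1 : R7 K).c5 = 0 := rfl
@[simp] lemma one_c6 : (1 : R7 K).c6 = 0 := rfl
@[simp] lemma add_c0 : (s + t).c0 = s.c0 + t.c0 := rfl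
@[simp] lemma add_c1 : (s + t).c1 = s.c1 + t.c1 := rfl
@[simp] lemma add_c2 : (s + t).c2 = s.c2 + t.c2 := rfl
@[simp] lemma add_c3 : (s + t).c3 = s.c3 + t.c3 := rfl
@[simp] lemma add_c4 : (s + t).c4 = s.c4 + t.c4 := rfl
@[simp] lemma add_c5 : (s + t).c5 = s.c5 + t.c5 := rfl
@[simp] lemma add_c6 : (s + t).c6 = s.c6 + t.c6 := rfl
@[simp] lemma neg_c0 : (-s).c0 = -s.c0 := rfl
@[simp] lemma neg_c1 : (-s).c1 = -s.c1 := rfl
@[simp] lemma neg_c2 : (-s).c2 = -s.c2 := rfl
@[simp] lemma neg_c3 : (-s).c3 = -s.c3 := rfl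
@[simp] lemma neg_c4 : (-s).c4 = -s.c4 := rfl
@[simp] lemma neg_c5 : (-s).c5 = -s.c5 := rfl
@[simp] lemma neg_c6 : (-s).c6 = -s.c6 := rfl
@[simp] lemma mul_c0 : (s * t).c0 = s.c0 * t.c0 := rfl
@[simp] lemma mul_c1 : (s * t).c1 = s.c0 * t.c1 + s.c1 * t.c0 := rfl
@[simp] lemma mul_c2 : (s * t).c2 = s.c0 * t.c2 + s.c2 * t.c0 := rfl
@[simp] lemma mul_c3 : (s * t).c3 = s.c0 * t.c3 + s.c3 * t.c0 + s.c1 * t.c1 := rfl
@[simp] lemma mul_c4 : (s * t).c4 =
  s.c0 * t.c4 + s.c4 * t.c0 + s.c1 * t.c2 + s.c2 * t.c1 := rfl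
@[simp] lemma mul_c5 : (s * t).c5 = s.c0 * t.c5 + s.c5 * t.c0 + s.c2 * t.c2 := rfl
@[simp] lemma mul_c6 : (s * t).c6 =
  s.c0 * t.c6 + s.c6 * t.c0 + (s.c1 * t.c4 + s.c4 * t.c1) + (s.c2 * t.c3 + s.c3 * t.c2) -
    (s.c1 * t.c5 + s.c5 * t.c1) - (s.c2 * t.c4 + s.c4 * t.c2) := rfl
end simps

instance : CommRing (R7 K) :=
  CommRing.ofMinimalAxioms
    (fun s t r => by ext <;> simp <;> ring)
    (fun s => by ext <;> simp)
    (fun s => by ext <;> simp)
    (fun s t r => by ext <;> simp <;> ring)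
    (fun s t => by ext <;> simp <;> ring)
    (fun s => by ext <;> simp)
    (fun s t r => by ext <;> simp <;> ring)

/-- The inclusion of `K`. -/
def ofK : K →+* R7 K where
  toFun k := ⟨k, 0, 0, 0, 0, 0, 0⟩
  map_one' := rfl
  map_mul' k k' := by ext <;> simp
  map_zero' := rfl
  map_add' k k' := by ext <;> simp

instance : Algebra K (R7 K) := RingHom.toAlgebra ofK

lemma algebraMap_def (k : K) : algebraMap K (R7 K) k = ⟨k, 0, 0, 0, 0, 0, 0⟩ := rfl

lemma smul_def (k : K) (s : R7 K) : k • s = ⟨k * s.c0, k * s.c1, k * s.c2, k * s.c3,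
    k * s.c4, k * s.c5, k * s.c6⟩ := by
  rw [Algebra.smul_def, algebraMap_def]
  ext <;> simp

/-- The residue map. -/
def res : R7 K →+* K where
  toFun s := s.c0
  map_one' := rfl
  map_mul' _ _ := rfl
  map_zero' := rfl
  map_add' _ _ := rfl

lemma res_apply (s : R7 K) : res s = s.c0 := rfl

lemma nilp (n : R7 K) (h : n.c0 = 0) : IsNilpotent n := by
  refine ⟨4, ?_⟩
  have h1 : n ^ 4 = (n * n) * (n * n) := by ring
  rw [h1]
  ext <;> simp [h]

lemma isUnit_iff (s : R7 K) : IsUnit s ↔ s.c0 ≠ 0 := by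
  constructor
  · intro h
    exact (h.map res).ne_zero
  · intro h
    have h1 : IsUnit (algebraMap K (R7 K) s.c0) := (isUnit_iff_ne_zero.2 h).map _
    have h2 : IsNilpotent (s - algebraMap K (R7 K) s.c0) := by
      apply nilp
      rw [sub_eq_add_neg, add_c0, neg_c0, algebraMap_def]
      ring
    have h3 := h2.isUnit_add_left_of_commute h1 (Commute.all _ _)
    rwa [add_sub_cancel] at h3

instance : Nontrivial (R7 K) := ⟨0, 1, fun h => zero_ne_one (congrArg R7.c0 h)⟩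

instance : IsLocalRing (R7 K) := by
  apply IsLocalRing.of_isUnit_or_isUnit_one_sub_self
  intro a
  rw [isUnit_iff, isUnit_iff]
  by_contra hcon
  push Not at hcon
  obtain ⟨h1, h2⟩ := hcon
  rw [sub_eq_add_neg, add_c0, neg_c0, one_c0, h1] at h2
  simp at h2

lemma isUnit_two [CharZero K] : IsUnit (2 : R7 K) := by
  have h : (2 : R7 K) = 1 + 1 := one_add_one_eq_two.symm
  rw [h, isUnit_iff, add_c0, one_c0, one_add_one_eq_two]
  exact two_ne_zero

/-- Coordinates. -/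
def toPi : R7 K ≃ₗ[K] (Fin 7 → K) where
  toFun s := ![s.c0, s.c1, s.c2, s.c3, s.c4, s.c5, s.c6]
  invFun v := ⟨v 0, v 1, v 2, v 3, v 4, v 5, v 6⟩
  left_inv s := by ext <;> rfl
  right_inv v := by
    funext i
    fin_cases i <;> rfl
  map_add' s t := by
    funext i
    fin_cases i <;> rfl
  map_smul' k s := by
    rw [smul_def]
    funext i
    fin_cases i <;> rfl

/-- A coefficient field `τ` gives an automorphism of the ring. -/
def tw (τ : K →+* R7 K) (r : R7 K) : R7 K :=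
  ⟨r.c0, r.c1 + (τ r.c0).c1, r.c2 + (τ r.c0).c2, r.c3 + (τ r.c0).c3 + (τ r.c1).c1,
    r.c4 + (τ r.c0).c4 + (τ r.c1).c2 + (τ r.c2).c1, r.c5 + (τ r.c0).c5 + (τ r.c2).c2,
    r.c6 + (τ r.c0).c6 + ((τ r.c1).c4 - (τ r.c1).c5) + ((τ r.c2).c3 - (τ r.c2).c4) +
      (τ r.c3).c2 + ((τ r.c4).c1 - (τ r.c4).c2) - (τ r.c5).c1⟩

lemma tw_add (τ : K →+* R7 K) (r s : R7 K) : tw τ (r + s) = tw τ r + tw τ s := by
  ext <;> simp [tw] <;> ring

lemma tw_mul (τ : K →+* R7 K) (hτ : ∀ k, (τ k).c0 = k) (r s : R7 K) :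
    tw τ (r * s) = tw τ r * tw τ s := by
  ext <;> simp [tw, hτ] <;> ring

lemma tw_bij (τ : K →+* R7 K) : Function.Bijective (tw τ) := by
  constructor
  · intro r s h
    have h0 : r.c0 = s.c0 := by
      have h00 := congrArg R7.c0 h
      exact h00
    have h1 := congrArg R7.c1 h
    have h2 := congrArg R7.c2 h
    have h3 := congrArg R7.c3 h
    have h4 := congrArg R7.c4 h
    have h5 := congrArg R7.c5 h
    have h6 := congrArg R7.c6 h
    simp only [tw] at h1 h2 h3 h4 h5 h6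
    rw [h0] at h1 h2 h3 h4 h5 h6
    have e1 : r.c1 = s.c1 := add_right_cancel h1
    have e2 : r.c2 = s.c2 := add_right_cancel h2
    rw [e1] at h3 h4 h6
    rw [e2] at h4 h5 h6
    have e3 : r.c3 = s.c3 := by linear_combination h3
    have e4 : r.c4 = s.c4 := by linear_combination h4
    have e5 : r.c5 = s.c5 := by linear_combination h5
    rw [e3, e4, e5] at h6
    have e6 : r.c6 = s.c6 := by linear_combination h6
    ext
    · exact h0
    · exact e1
    · exact e2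
    · exact e3
    · exact e4
    · exact e5
    · exact e6
  · intro t
    obtain ⟨r1, hr1⟩ : ∃ r1, r1 = t.c1 - (τ t.c0).c1 := ⟨_, rfl⟩
    obtain ⟨r2, hr2⟩ : ∃ r2, r2 = t.c2 - (τ t.c0).c2 := ⟨_, rfl⟩
    obtain ⟨r3, hr3⟩ : ∃ r3, r3 = t.c3 - (τ t.c0).c3 - (τ r1).c1 := ⟨_, rfl⟩
    obtain ⟨r4, hr4⟩ : ∃ r4, r4 = t.c4 - (τ t.c0).c4 - (τ r1).c2 - (τ r2).c1 := ⟨_, rfl⟩
    obtain ⟨r5, hr5⟩ : ∃ r5, r5 = t.c5 - (τ t.c0).c5 - (τ r2).c2 := ⟨_, rfl⟩
    obtain ⟨r6, hr6⟩ : ∃ r6, r6 = t.c6 - (τ t.c0).c6 - ((τ r1).c4 - (τ r1).c5) -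
      ((τ r2).c3 - (τ r2).c4) - (τ r3).c2 - ((τ r4).c1 - (τ r4).c2) + (τ r5).c1 := ⟨_, rfl⟩
    refine ⟨⟨t.c0, r1, r2, r3, r4, r5, r6⟩, ?_⟩
    ext
    · rfl
    · simp only [tw]; linear_combination hr1
    · simp only [tw]; linear_combination hr2
    · simp only [tw]; linear_combination hr3
    · simp only [tw]; linear_combination hr4
    · simp only [tw]; linear_combination hr5
    · simp only [tw]; linear_combination hr6

/-- The automorphism of the ring attached to `τ`. -/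
noncomputable def twEquiv (τ : K →+* R7 K) (hτ : ∀ k, (τ k).c0 = k) : R7 K ≃+* R7 K :=
  { Equiv.ofBijective (tw τ) (tw_bij τ) with
    map_mul' := tw_mul τ hτ
    map_add' := tw_add τ }

lemma twEquiv_ofK (τ : K →+* R7 K) (hτ : ∀ k, (τ k).c0 = k) (k : K) :
    twEquiv τ hτ (algebraMap K (R7 K) k) = τ k := by
  show tw τ (algebraMap K (R7 K) k) = τ k
  rw [algebraMap_def]
  ext
  · simp [tw, hτ]
  all_goals simp [tw]

end ring

section lift

open Polynomial in
/-- Coefficient fields with prescribed value at a transcendental element. -/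
lemma exists_lift (K : Type u) [Field K] [CharZero K] (c : K) (hc : Transcendental ℚ c)
    (μ : R7 K) (hμ : μ.c0 = 0) :
    ∃ τ : K →+* R7 K, (∀ k, (τ k).c0 = k) ∧ τ c = algebraMap K (R7 K) c + μ := by
  have hinj : Function.Injective (aeval (R := ℚ) c) := transcendental_iff_injective.mp hc
  let k := FractionRing ℚ[X]
  let i0 : k →+* K := IsFractionRing.lift (A := ℚ[X]) (K := k) (g := (aeval (R := ℚ) c : ℚ[X] →+* K)) hinj
  let _ : Algebra k K := i0.toAlgebra
  have : CharZero k := inferInstance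
  have := formallySmooth_char_zero k K
  let π : R7 K →+* K := res
  have hπ : Function.Surjective π := fun x => ⟨algebraMap K (R7 K) x, rfl⟩
  have hnil : IsNilpotent (RingHom.ker π) := by
    refine ⟨4, ?_⟩
    let J : Ideal (R7 K) :=
      { carrier := {a | a.c0 = 0 ∧ a.c1 = 0 ∧ a.c2 = 0}
        add_mem' := by
          rintro a b ⟨h1, h2, h3⟩ ⟨h4, h5, h6⟩
          exact ⟨by simp [h1, h4], by simp [h2, h5], by simp [h3, h6]⟩
        zero_mem' := ⟨rfl, rfl, rfl⟩
        smul_mem' := by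
          rintro a b ⟨h1, h2, h3⟩
          exact ⟨by simp [h1], by simp [h1, h2], by simp [h1, h3]⟩ }
    have h1 : RingHom.ker π * RingHom.ker π ≤ J := by
      rw [Ideal.mul_le]
      intro a ha b hb
      have ha' : a.c0 = 0 := ha
      have hb' : b.c0 = 0 := hb
      exact ⟨by simp [ha'], by simp [ha', hb'], by simp [ha', hb']⟩
    have h2 : J * J ≤ ⊥ := by
      rw [Ideal.mul_le]
      rintro a ⟨h1, h2, h3⟩ b ⟨h4, h5, h6⟩
      rw [Ideal.mem_bot]
      ext <;> simp [h1, h2, h3, h4, h5, h6]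
    have h3 : RingHom.ker π ^ 4 = (RingHom.ker π * RingHom.ker π) * (RingHom.ker π * RingHom.ker π) := by
      ring
    rw [h3]
    exact eq_bot_iff.mpr ((Ideal.mul_mono h1 h1).trans h2)
  let A := R7 K
  let φ0 : ℚ →+* A := (algebraMap K (R7 K)).comp (algebraMap ℚ K)
  let _ : Algebra ℚ A := φ0.toAlgebra
  let j0 : ℚ[X] →+* A := (aeval (R := ℚ) (algebraMap K (R7 K) c + μ : A) : ℚ[X] →+* A)
  have hπj : ∀ p : ℚ[X], π (j0 p) = aeval (R := ℚ) c p := by
    intro p
    have h1 : π (j0 p) = eval₂ (π.comp (algebraMap ℚ A)) (π (algebraMap K (R7 K) c + μ)) p := by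
      show π (aeval (R := ℚ) (algebraMap K (R7 K) c + μ : A) p) = _
      rw [aeval_def, hom_eval₂]
    rw [h1, aeval_def]
    congr 1
    show (algebraMap K (R7 K) c + μ).c0 = c
    rw [add_c0, hμ, algebraMap_def, add_zero]
  have hunit : ∀ p : nonZeroDivisors ℚ[X], IsUnit (j0 p) := by
    intro p
    have hp : (p : ℚ[X]) ≠ 0 := nonZeroDivisors.ne_zero p.2
    rw [isUnit_iff, ← res_apply]
    have h1 : π (j0 p) ≠ 0 := by
      rw [hπj]
      intro h
      exact hp (hinj (by rw [h, map_zero]))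
    exact h1
  let j : k →+* A := IsLocalization.lift (M := nonZeroDivisors ℚ[X]) (g := j0) hunit
  have hj : π.comp j = algebraMap k K := by
    refine IsLocalization.ringHom_ext (nonZeroDivisors ℚ[X]) ?_
    ext p
    · simp
    · change π (j (algebraMap ℚ[X] k X)) = i0 (algebraMap ℚ[X] k X)
      have h1 : j (algebraMap ℚ[X] k X) = j0 X := IsLocalization.lift_eq hunit X
      have h2 : i0 (algebraMap ℚ[X] k X) = aeval (R := ℚ) c X := IsFractionRing.lift_algebraMap hinj X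
      rw [h1, h2, hπj]
  obtain ⟨τ, h1, h2⟩ := lift_lemma π hπ hnil j hj
  refine ⟨τ, fun x => RingHom.congr_fun h1 x, ?_⟩
  have h3 : τ c = j (algebraMap ℚ[X] k X) := by
    rw [← h2]
    change τ c = τ (i0 (algebraMap ℚ[X] k X))
    have h4 : i0 (algebraMap ℚ[X] k X) = aeval (R := ℚ) c X := IsFractionRing.lift_algebraMap hinj X
    rw [h4, aeval_X]
  have h1 : j (algebraMap ℚ[X] k X) = j0 X := IsLocalization.lift_eq hunit X
  rw [h3, h1]
  change aeval (R := ℚ) (algebraMap K (R7 K) c + μ : A) X = _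
  rw [aeval_X]

end lift

section rigid

variable {K : Type u} [Field K] [CharZero K]

/-- The parameter `c + ε + s δ`. -/
def par (c : K) (s : ℕ) : R7 K := ⟨c, 1, s, 0, 0, 0, 0⟩

/-- Linear parts of elements of cube zero. -/
lemma cube (E : R7 K) (h0 : E.c0 = 0) (h : E * E * E = 0) :
    E.c1 * E.c2 * (E.c1 - E.c2) = 0 := by
  have h1 := congrArg R7.c6 h
  simp [h0] at h1
  have h2 : (3 : K) * (E.c1 * E.c2 * (E.c1 - E.c2)) = 0 := by linear_combination h1
  exact (mul_eq_zero.mp h2).resolve_left (by norm_num)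

lemma endgame (a1 a2 b1 b2 lam : K) (s t : ℕ) (hs : 3 ≤ s) (ht : 3 ≤ t) (hlam : lam ≠ 0)
    (e1 : a1 * a2 * (a1 - a2) = 0) (d1 : b1 * b2 * (b1 - b2) = 0)
    (f1 : (a1 + b1) * (a2 + b2) * (a1 + b1 - (a2 + b2)) = 0)
    (hdet : a1 * b2 - a2 * b1 ≠ 0) (g1 : a1 + s * b1 = lam) (g2 : a2 + s * b2 = lam * t) :
    s = t := by
  have can : ∀ x y z : K, z ≠ 0 → z * (x - y) = 0 → x = y := by
    intro x y z hz h
    have := (mul_eq_zero.mp h).resolve_left hz
    linear_combination this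
  rcases mul_eq_zero.mp e1 with e1 | e1
  · rcases mul_eq_zero.mp e1 with e1 | e1
    · -- a1 = 0
      subst e1
      have hdet' : a2 * b1 ≠ 0 := fun h => hdet (by linear_combination -h)
      have ha2 : a2 ≠ 0 := left_ne_zero_of_mul hdet'
      have hb1 : b1 ≠ 0 := right_ne_zero_of_mul hdet'
      rcases mul_eq_zero.mp d1 with d1 | d1
      · have hb2 : b2 = 0 := (mul_eq_zero.mp d1).resolve_left hb1
        subst hb2
        have h1 : b1 = a2 := can _ _ _ hdet' (by linear_combination f1)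
        subst h1
        have h2 : ((s * t : ℕ) : K) = ((1 : ℕ) : K) := by
          push_cast
          apply can _ _ _ hb1
          linear_combination (t : K) * g1 - g2
        have h3 : s * t = 1 := Nat.cast_injective h2
        nlinarith
      · have hb : b1 = b2 := by linear_combination d1
        subst hb
        have h1 : a2 = -b1 := can _ _ _ hdet' (by linear_combination -f1)
        have h2 : ((s : ℕ) : K) = ((1 + s * t : ℕ) : K) := by
          push_cast
          apply can _ _ _ hb1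
          linear_combination g2 - h1 - (t : K) * g1
        have h3 : s = 1 + s * t := Nat.cast_injective h2
        nlinarith
    · -- a2 = 0
      subst e1
      have hdet' : a1 * b2 ≠ 0 := fun h => hdet (by linear_combination h)
      have ha1 : a1 ≠ 0 := left_ne_zero_of_mul hdet'
      have hb2 : b2 ≠ 0 := right_ne_zero_of_mul hdet'
      rcases mul_eq_zero.mp d1 with d1 | d1
      · have hb1 : b1 = 0 := (mul_eq_zero.mp d1).resolve_right hb2
        subst hb1
        have h1 : a1 = b2 := can _ _ _ hdet' (by linear_combination f1)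
        subst h1
        have h2 : ((s : ℕ) : K) = ((t : ℕ) : K) := by
          apply can _ _ _ ha1
          linear_combination g2 - (t : K) * g1
        exact Nat.cast_injective h2
      · have hb : b1 = b2 := by linear_combination d1
        subst hb
        have h1 : a1 = -b1 := can _ _ _ hdet' (by linear_combination f1)
        subst h1
        have h2 : ((s + t : ℕ) : K) = ((s * t : ℕ) : K) := by
          push_cast
          apply can _ _ _ hb2
          linear_combination g2 - (t : K) * g1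
        have h3 : s + t = s * t := Nat.cast_injective h2
        nlinarith
  · have ha : a1 = a2 := by linear_combination e1
    subst ha
    rcases mul_eq_zero.mp d1 with d1 | d1
    · rcases mul_eq_zero.mp d1 with d1 | d1
      · subst d1
        have hdet' : a1 * b2 ≠ 0 := fun h => hdet (by linear_combination h)
        have ha1 : a1 ≠ 0 := left_ne_zero_of_mul hdet'
        have h1 : b2 = -a1 := can _ _ _ hdet' (by linear_combination -f1)
        subst h1
        have h2 : ((s + t : ℕ) : K) = ((1 : ℕ) : K) := by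
          push_cast
          apply can _ _ _ ha1
          linear_combination (t : K) * g1 - g2
        have h3 : s + t = 1 := Nat.cast_injective h2
        omega
      · subst d1
        have hdet' : a1 * b1 ≠ 0 := fun h => hdet (by linear_combination -h)
        have ha1 : a1 ≠ 0 := left_ne_zero_of_mul hdet'
        have h1 : b1 = -a1 := can _ _ _ hdet' (by linear_combination f1)
        subst h1
        have h2 : ((1 + s * t : ℕ) : K) = ((t : ℕ) : K) := by
          push_cast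
          apply can _ _ _ ha1
          linear_combination g2 - (t : K) * g1
        have h3 : 1 + s * t = t := Nat.cast_injective h2
        nlinarith
    · have hb : b1 = b2 := by linear_combination d1
      subst hb
      exact absurd (by ring) hdet

/-- The parameters `c + ε + s δ`, `s ≥ 3`, are pairwise inequivalent. -/
theorem rigid (c : K) (hc : c ≠ 0) (s t : ℕ) (hs : 3 ≤ s) (ht : 3 ≤ t) (ψ : R7 K ≃+* R7 K)
    (σ : K ≃+* K) (hσ : ∀ k, ψ (algebraMap K _ k) = algebraMap K _ (σ k))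
    (h : ψ (par c s) = par c t ∨ ψ (par c s) * par c t = 1) : s = t := by
  obtain ⟨E, hE⟩ : ∃ E, E = ψ ⟨0, 1, 0, 0, 0, 0, 0⟩ := ⟨_, rfl⟩
  obtain ⟨D, hD⟩ : ∃ D, D = ψ ⟨0, 0, 1, 0, 0, 0, 0⟩ := ⟨_, rfl⟩
  have hE3 : E * E * E = 0 := by
    rw [hE, ← map_mul, ← map_mul]
    have : (⟨0, 1, 0, 0, 0, 0, 0⟩ : R7 K) * ⟨0, 1, 0, 0, 0, 0, 0⟩ * ⟨0, 1, 0, 0, 0, 0, 0⟩ = 0 := by
      ext <;> simp
    rw [this, map_zero]
  have hD3 : D * D * D = 0 := by
    rw [hD, ← map_mul, ← map_mul]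
    have : (⟨0, 0, 1, 0, 0, 0, 0⟩ : R7 K) * ⟨0, 0, 1, 0, 0, 0, 0⟩ * ⟨0, 0, 1, 0, 0, 0, 0⟩ = 0 := by
      ext <;> simp
    rw [this, map_zero]
  have hF3 : (E + D) * (E + D) * (E + D) = 0 := by
    rw [hE, hD, ← map_add, ← map_mul, ← map_mul]
    have : ((⟨0, 1, 0, 0, 0, 0, 0⟩ : R7 K) + ⟨0, 0, 1, 0, 0, 0, 0⟩) *
        ((⟨0, 1, 0, 0, 0, 0, 0⟩ : R7 K) + ⟨0, 0, 1, 0, 0, 0, 0⟩) *
        ((⟨0, 1, 0, 0, 0, 0, 0⟩ : R7 K) + ⟨0, 0, 1, 0, 0, 0, 0⟩) = 0 := by
      ext <;> simp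
    rw [this, map_zero]
  have hne : E * E * D ≠ 0 := by
    intro h0
    rw [hE, hD, ← map_mul, ← map_mul] at h0
    have h1 : (⟨0, 1, 0, 0, 0, 0, 0⟩ : R7 K) * ⟨0, 1, 0, 0, 0, 0, 0⟩ * ⟨0, 0, 1, 0, 0, 0, 0⟩ = 0 :=
      ψ.injective (by rw [h0, map_zero])
    have h2 := congrArg R7.c6 h1
    simp at h2
  have hcube0 : ∀ F : R7 K, F * F * F = 0 → F.c0 = 0 := by
    intro F hF
    have h1 := congrArg R7.c0 hF
    simpa using h1
  have hE0 := hcube0 E hE3
  have hD0 := hcube0 D hD3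
  have e1 := cube E hE0 hE3
  have d1 := cube D hD0 hD3
  have f1 := cube (E + D) (by rw [add_c0, hE0, hD0, add_zero]) hF3
  simp only [add_c1, add_c2] at f1
  have hQ : E.c1 * E.c1 * D.c2 + 2 * (E.c1 * E.c2 * D.c1) - 2 * (E.c1 * E.c2 * D.c2) -
      E.c2 * E.c2 * D.c1 ≠ 0 := by
    intro h0
    apply hne
    ext
    · simp [hE0]
    · simp [hE0]
    · simp [hE0]
    · simp [hE0, hD0]
    · simp [hE0, hD0]
    · simp [hE0, hD0]
    · simp only [mul_c6, mul_c0, mul_c1, mul_c2, mul_c3, mul_c4, mul_c5, hE0, hD0, zero_c6]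
      linear_combination h0
  -- the image of the parameter
  have hpar : ψ (par c s) = algebraMap K _ (σ c) + E + (s : R7 K) * D := by
    have h1 : par c s = algebraMap K (R7 K) c + ⟨0, 1, 0, 0, 0, 0, 0⟩ +
        algebraMap K (R7 K) (s : K) * ⟨0, 0, 1, 0, 0, 0, 0⟩ := by
      rw [algebraMap_def, algebraMap_def]
      ext <;> simp [par]
    rw [h1, map_add, map_add, map_mul, hσ, map_natCast, map_natCast, hE, hD]
  have hsnat : (s : R7 K) = algebraMap K (R7 K) (s : K) := by rw [map_natCast]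
  rw [hsnat, algebraMap_def, algebraMap_def] at hpar
  obtain ⟨lam, hlam, g1, g2⟩ : ∃ lam : K, lam ≠ 0 ∧ E.c1 + s * D.c1 = lam ∧
      E.c2 + s * D.c2 = lam * t := by
    rcases h with h | h
    · rw [hpar] at h
      have k1 := congrArg R7.c1 h
      have k2 := congrArg R7.c2 h
      simp [par, hE0, hD0] at k1 k2
      exact ⟨1, one_ne_zero, k1, by rw [k2]; ring⟩
    · rw [hpar] at h
      have k0 := congrArg R7.c0 h
      have k1 := congrArg R7.c1 h
      have k2 := congrArg R7.c2 h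
      simp [par, hE0, hD0] at k0 k1 k2
      have hsc : σ c ≠ 0 := by
        intro h0
        rw [h0, zero_mul] at k0
        exact zero_ne_one k0
      refine ⟨-(σ c) / c, div_ne_zero (neg_ne_zero.2 hsc) hc, ?_, ?_⟩
      · field_simp
        linear_combination k1
      · field_simp
        linear_combination k2
  refine endgame E.c1 E.c2 D.c1 D.c2 lam s t hs ht hlam e1 d1 f1 ?_ g1 g2
  intro hdet
  apply hQ
  have key : E.c2 * D.c1 * (E.c1 - E.c2) = 0 := by
    by_cases h0 : E.c1 = 0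
    · rw [h0] at hdet ⊢
      have : E.c2 * D.c1 = 0 := by linear_combination -hdet
      rw [this, zero_mul]
    · have h1 : E.c1 * (E.c2 * D.c1 * (E.c1 - E.c2)) = 0 := by linear_combination D.c1 * e1
      exact (mul_eq_zero.mp h1).resolve_left h0
  linear_combination (E.c1 - 2 * E.c2) * hdet + 3 * key

end rigid

end R7

end Pool.Agent.Y28.SA
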